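import Pool.Agent.Helper58.Bil.GeoDefs

/-!
Piece ASSEMBLY (MP_190632_an): periodic gluing of the launcher into the base table.
-/

set_option autoImplicit false

namespace Pool.Agent.Helper58.Bil

open Real Set Filter Topology

namespace Asm

/-- `π`-periodization. -/
noncomputable def per (f : ℝ → ℝ) (θ : ℝ) : ℝ := f (θ - (round (θ / π) : ℤ) * π)

theorem abs_round_le (θ : ℝ) : |θ - (round (θ / π) : ℤ) * π| ≤ π / 2 := by
  have h := abs_sub_round (θ / π)
  have hπ := Real.pi_pos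
  have h1 : θ - (round (θ / π) : ℤ) * π = (θ / π - (round (θ / π) : ℤ)) * π := by
    field_simp
  rw [h1, abs_mul, abs_of_pos hπ]
  nlinarith

theorem per_eq {f : ℝ → ℝ} {r : ℝ} (_hr : r < π / 2) (hf : ∀ y, r < |y| → f y = 0)
    (n : ℤ) {θ : ℝ} (h : |θ - n * π| < π - r) : per f θ = f (θ - n * π) := by
  unfold per
  set m := round (θ / π) with hm
  have h1 : |θ - (m : ℤ) * π| ≤ π / 2 := abs_round_le θ
  by_cases hmn : m = n
  · rw [hmn]
  · have hπ := Real.pi_pos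
    have h2 : (1 : ℝ) ≤ |((m - n : ℤ) : ℝ)| := by
      have : (1 : ℤ) ≤ |m - n| := Int.one_le_abs (sub_ne_zero.2 hmn)
      rw [← Int.cast_abs]
      exact_mod_cast this
    have h3 : π ≤ |((m - n : ℤ) : ℝ) * π| := by
      rw [abs_mul, abs_of_pos hπ]; nlinarith
    have h4 : ((m - n : ℤ) : ℝ) * π = (θ - n * π) - (θ - m * π) := by push_cast; ring
    have h5 : π ≤ |θ - n * π| + |θ - m * π| := by
      rw [h4] at h3
      exact h3.trans (abs_sub _ _)
    rw [hf _ (by linarith), hf _ (by linarith)]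

theorem per_eq0 {f : ℝ → ℝ} {r : ℝ} (hr : r < π / 2) (hf : ∀ y, r < |y| → f y = 0)
    {θ : ℝ} (h : |θ| < π - r) : per f θ = f θ := by
  have := per_eq hr hf 0 (θ := θ) (by simpa using h)
  simpa using this

theorem per_periodic (f : ℝ → ℝ) : Function.Periodic (per f) π := by
  intro θ
  unfold per
  have h1 : (θ + π) / π = θ / π + 1 := by
    field_simp
  rw [h1, round_add_one]
  congr 1
  push_cast
  ring

/-- local form -/
theorem per_local {f : ℝ → ℝ} {r : ℝ} (hr : r < π / 2) (hf : ∀ y, r < |y| → f y = 0)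
    (n : ℤ) {θ : ℝ} (h : |θ - n * π| < π - r) :
    per f =ᶠ[𝓝 θ] fun x => f (x - n * π) := by
  have h1 : ∀ᶠ x in 𝓝 θ, |x - n * π| < π - r := by
    have hc : Continuous fun x : ℝ => |x - n * π| := by fun_prop
    exact hc.continuousAt.eventually_lt continuousAt_const h
  filter_upwards [h1] with x hx
  exact per_eq hr hf n hx

theorem deriv_shift (f : ℝ → ℝ) (c θ : ℝ) : deriv (fun x => f (x - c)) θ = deriv f (θ - c) :=
  deriv_comp_sub_const f c θ

theorem per_deriv {f : ℝ → ℝ} {r : ℝ} (hr : r < π / 2) (hf : ∀ y, r < |y| → f y = 0)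
    (n : ℤ) {θ : ℝ} (h : |θ - n * π| < π - r) :
    deriv (per f) θ = deriv f (θ - n * π) := by
  rw [(per_local hr hf n h).deriv_eq, deriv_shift]

theorem per_deriv2 {f : ℝ → ℝ} {r : ℝ} (hr : r < π / 2) (hf : ∀ y, r < |y| → f y = 0)
    (n : ℤ) {θ : ℝ} (h : |θ - n * π| < π - r) :
    deriv (deriv (per f)) θ = deriv (deriv f) (θ - n * π) := by
  have h1 : deriv (per f) =ᶠ[𝓝 θ] fun x => deriv f (x - n * π) := by
    have h2 := (per_local hr hf n h).deriv
    refine h2.trans (Eventually.of_forall fun x => ?_)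
    exact deriv_shift f _ x
  rw [h1.deriv_eq, deriv_shift]

theorem per_contDiff {f : ℝ → ℝ} {r : ℝ} (hr : r < π / 2) (hf : ∀ y, r < |y| → f y = 0)
    (hs : ContDiff ℝ ((⊤ : ℕ∞) : WithTop ℕ∞) f) :
    ContDiff ℝ ((⊤ : ℕ∞) : WithTop ℕ∞) (per f) := by
  rw [contDiff_iff_contDiffAt]
  intro θ
  have h1 : |θ - (round (θ / π) : ℤ) * π| < π - r := by
    have := abs_round_le θ
    linarith
  refine ContDiffAt.congr_of_eventuallyEq ?_ (per_local hr hf _ h1)
  exact (hs.comp (contDiff_id.sub contDiff_const)).contDiffAt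

theorem per_even {f : ℝ → ℝ} {r : ℝ} (hr : r < π / 2) (hf : ∀ y, r < |y| → f y = 0)
    (he : ∀ y, f (-y) = f y) (θ : ℝ) : per f (-θ) = per f θ := by
  have h1 : |θ - (round (θ / π) : ℤ) * π| < π - r := by
    have := abs_round_le θ
    linarith
  rw [per_eq hr hf _ h1]
  have h2 : |(-θ) - ((-(round (θ / π)) : ℤ) : ℝ) * π| < π - r := by
    have h3 : (-θ) - ((-(round (θ / π)) : ℤ) : ℝ) * π = -(θ - (round (θ / π) : ℤ) * π) := by
      push_cast; ring
    rw [h3, abs_neg]; exact h1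
  rw [per_eq hr hf _ h2]
  have h3 : (-θ) - ((-(round (θ / π)) : ℤ) : ℝ) * π = -(θ - (round (θ / π) : ℤ) * π) := by
    push_cast; ring
  rw [h3, he]

/-! ### Symmetrised pieces -/

/-- `f` on the right, `g` reflected on the left. -/
noncomputable def sym (f g : ℝ → ℝ) (y : ℝ) : ℝ := f y + g (-y)

theorem goodF_deriv_zero {f : ℝ → ℝ} {c : ℝ} (hf : GoodF f c) (y : ℝ)
    (hy : y ∉ Ioo (0 : ℝ) (7 / 20)) : deriv f y = 0 := by
  have hcont : Continuous (deriv f) := hf.sm.continuous_deriv (by exact_mod_cast le_top)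
  have hcl : IsClosed {y | deriv f y = 0} := isClosed_eq hcont continuous_const
  rw [mem_Ioo, not_and_or, not_lt, not_lt] at hy
  rcases hy with hy | hy
  · have h1 : Iio (0 : ℝ) ⊆ {y | deriv f y = 0} := by
      intro z hz
      have h2 : f =ᶠ[𝓝 z] fun _ => 0 := by
        filter_upwards [Iio_mem_nhds hz] with w hw
        exact hf.zero w (fun h => by have := h.1; simp only [mem_Iio] at hw; linarith)
      show deriv f z = 0
      rw [h2.deriv_eq, deriv_const]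
    have h3 := hcl.closure_subset_iff.2 h1
    rw [closure_Iio] at h3
    exact h3 hy
  · have h1 : Ioi (7 / 20 : ℝ) ⊆ {y | deriv f y = 0} := by
      intro z hz
      have h2 : f =ᶠ[𝓝 z] fun _ => 0 := by
        filter_upwards [Ioi_mem_nhds hz] with w hw
        exact hf.zero w (fun h => by have := h.2; simp only [mem_Ioi] at hw; linarith)
      show deriv f z = 0
      rw [h2.deriv_eq, deriv_const]
    have h3 := hcl.closure_subset_iff.2 h1
    rw [closure_Ioi] at h3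
    exact h3 hy

section sym

variable {f g : ℝ → ℝ} {c : ℝ}

theorem sym_sm (hf : GoodF f c) (hg : GoodF g c) :
    ContDiff ℝ ((⊤ : ℕ∞) : WithTop ℕ∞) (sym f g) :=
  hf.sm.add (hg.sm.comp contDiff_neg)

theorem sym_zero (hf : GoodF f c) (hg : GoodF g c) (y : ℝ) (hy : 7 / 20 < |y|) :
    sym f g y = 0 := by
  unfold sym
  rw [hf.zero, hg.zero, add_zero]
  · intro h
    rw [abs_of_neg (by linarith [h.1])] at hy
    linarith [h.2]
  · intro h
    rw [abs_of_pos h.1] at hy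
    linarith [h.2]

theorem sym_zero' (hf : GoodF f c) (hg : GoodF g c) (y : ℝ) (hy : 7 / 20 ≤ |y|) :
    sym f g y = 0 := by
  unfold sym
  rw [hf.zero, hg.zero, add_zero]
  · intro h
    rw [abs_of_neg (by linarith [h.1])] at hy
    linarith [h.2]
  · intro h
    rw [abs_of_pos h.1] at hy
    linarith [h.2]

theorem sym_pos (hg : GoodF g c) {y : ℝ} (hy : 0 ≤ y) : sym f g y = f y := by
  unfold sym
  rw [hg.zero (-y) (fun h => by linarith [h.1]), add_zero]

theorem sym_neg (hf : GoodF f c) {y : ℝ} (hy : 0 ≤ y) : sym f g (-y) = g y := by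
  unfold sym
  rw [hf.zero (-y) (fun h => by linarith [h.1]), zero_add, neg_neg]

theorem deriv_sym (hf : GoodF f c) (hg : GoodF g c) (y : ℝ) :
    deriv (sym f g) y = deriv f y - deriv g (-y) := by
  have h1 : DifferentiableAt ℝ f y := hf.sm.differentiable (by simp) y
  have h2 : DifferentiableAt ℝ (fun x => g (-x)) y :=
    (hg.sm.comp contDiff_neg).differentiable (by simp) y
  have h3 : deriv (sym f g) y = deriv f y + deriv (fun x => g (-x)) y := deriv_add h1 h2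
  rw [h3, deriv_comp_neg]
  ring

theorem deriv_sym_pos (hf : GoodF f c) (hg : GoodF g c) {y : ℝ} (hy : 0 ≤ y) :
    deriv (sym f g) y = deriv f y := by
  rw [deriv_sym hf hg, goodF_deriv_zero hg (-y) (fun h => by linarith [h.1]), sub_zero]

theorem deriv2_sym (hf : GoodF f c) (hg : GoodF g c) (y : ℝ) :
    deriv (deriv (sym f g)) y = deriv (deriv f) y + deriv (deriv g) (-y) := by
  have hf' : ContDiff ℝ ((⊤ : ℕ∞) : WithTop ℕ∞) (deriv f) := by
    have := hf.sm
    exact this.deriv'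
  have hg' : ContDiff ℝ ((⊤ : ℕ∞) : WithTop ℕ∞) (deriv g) := by
    have := hg.sm
    exact this.deriv'
  have h0 : deriv (sym f g) = fun x => deriv f x - deriv g (-x) := by
    funext x; exact deriv_sym hf hg x
  rw [h0]
  have h1 : DifferentiableAt ℝ (deriv f) y := hf'.differentiable (by simp) y
  have h2 : DifferentiableAt ℝ (fun x => deriv g (-x)) y :=
    (hg'.comp contDiff_neg).differentiable (by simp) y
  rw [deriv_fun_sub h1 h2, deriv_comp_neg]
  ring

theorem sym_bd (hf : GoodF f c) (hg : GoodF g c) (y : ℝ) : |sym f g y| ≤ 2 * c := by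
  unfold sym
  have h1 := (hf.small y (mem_univ _)).1
  have h2 := (hg.small (-y) (mem_univ _)).1
  exact (abs_add_le _ _).trans (by linarith)

theorem deriv2_sym_bd (hf : GoodF f c) (hg : GoodF g c) (y : ℝ) :
    |deriv (deriv (sym f g)) y| ≤ 2 * c := by
  rw [deriv2_sym hf hg]
  have h1 := (hf.small y (mem_univ _)).2.2
  have h2 := (hg.small (-y) (mem_univ _)).2.2
  exact (abs_add_le _ _).trans (by linarith)

theorem r_lt : (7 / 20 : ℝ) < π / 2 := by
  have := Real.pi_gt_three; linarith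

/-- the periodised piece -/
noncomputable def P (f g : ℝ → ℝ) : ℝ → ℝ := per (sym f g)

theorem P_sm (hf : GoodF f c) (hg : GoodF g c) :
    ContDiff ℝ ((⊤ : ℕ∞) : WithTop ℕ∞) (P f g) :=
  per_contDiff r_lt (sym_zero hf hg) (sym_sm hf hg)

theorem P_per (f g : ℝ → ℝ) : Function.Periodic (P f g) π := per_periodic _

theorem P_bd (hf : GoodF f c) (hg : GoodF g c) (y : ℝ) : |P f g y| ≤ 2 * c :=
  sym_bd hf hg _

theorem deriv2_P_bd (hf : GoodF f c) (hg : GoodF g c) (y : ℝ) :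
    |deriv (deriv (P f g)) y| ≤ 2 * c := by
  have h1 : |y - (round (y / π) : ℤ) * π| < π - 7 / 20 := by
    have := abs_round_le y
    have := r_lt
    linarith
  unfold P
  rw [per_deriv2 r_lt (sym_zero hf hg) _ h1]
  exact deriv2_sym_bd hf hg _

theorem P_eq (hf : GoodF f c) (hg : GoodF g c) {y : ℝ} (hy : |y| < π - 7 / 20) :
    P f g y = sym f g y := per_eq0 r_lt (sym_zero hf hg) hy

theorem P_pos (hf : GoodF f c) (hg : GoodF g c) {y : ℝ} (hy0 : 0 ≤ y) (hy : y < π - 7 / 20) :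
    P f g y = f y := by
  rw [P_eq hf hg (by rwa [abs_of_nonneg hy0]), sym_pos hg hy0]

theorem P_neg (hf : GoodF f c) (hg : GoodF g c) {y : ℝ} (hy0 : 0 ≤ y) (hy : y < π - 7 / 20) :
    P f g (-y) = g y := by
  rw [P_eq hf hg (by rwa [abs_neg, abs_of_nonneg hy0]), sym_neg hf hy0]

theorem P_zero (hf : GoodF f c) (hg : GoodF g c) {y : ℝ} (hy1 : 7 / 20 ≤ y)
    (hy : y < π - 7 / 20) : P f g y = 0 := by
  rw [P_eq hf hg (by rwa [abs_of_nonneg (by linarith)])]
  exact sym_zero' hf hg y (by rwa [abs_of_nonneg (by linarith)])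

theorem P_zero' (hf : GoodF f c) (hg : GoodF g c) {y : ℝ} (hy1 : 7 / 20 ≤ y)
    (hy : y < π - 7 / 20) : P f g (-y) = 0 := by
  rw [P_eq hf hg (by rwa [abs_neg, abs_of_nonneg (by linarith)])]
  exact sym_zero' hf hg (-y) (by rwa [abs_neg, abs_of_nonneg (by linarith)])

theorem deriv_P (hf : GoodF f c) (hg : GoodF g c) {y : ℝ} (hy : |y| < π - 7 / 20) :
    deriv (P f g) y = deriv (sym f g) y := by
  have := per_deriv r_lt (sym_zero hf hg) 0 (θ := y) (by simpa using hy)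
  unfold P
  simpa using this

theorem deriv_P_pos (hf : GoodF f c) (hg : GoodF g c) {y : ℝ} (hy0 : 0 ≤ y)
    (hy : y < π - 7 / 20) : deriv (P f g) y = deriv f y := by
  rw [deriv_P hf hg (by rwa [abs_of_nonneg hy0]), deriv_sym_pos hf hg hy0]

theorem deriv_P_zero (hf : GoodF f c) (hg : GoodF g c) {y : ℝ} (hy1 : 7 / 20 ≤ |y|)
    (hy : |y| < π - 7 / 20) : deriv (P f g) y = 0 := by
  rw [deriv_P hf hg hy, deriv_sym hf hg, goodF_deriv_zero hf, goodF_deriv_zero hg, sub_zero]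
  · intro h
    rw [abs_of_neg (by linarith [h.1])] at hy1
    linarith [h.2]
  · intro h
    rw [abs_of_pos h.1] at hy1
    linarith [h.2]

theorem P_even (hf : GoodF f c) (y : ℝ) : P f f (-y) = P f f y :=
  per_even r_lt (sym_zero hf hf) (fun z => by unfold sym; rw [neg_neg, add_comm]) y

end sym

/-! ### The glued table -/

section glue

variable {α c c' : ℝ} {H h d : ℝ → ℝ} {f1 f2 A B A' B' : ℝ → ℝ}

/-- the new mirror -/
noncomputable def H1 (H f1 f2 : ℝ → ℝ) (θ : ℝ) : ℝ := H θ + P f1 f1 θ + P f2 f2 (θ - π / 2)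

/-- the new caustic -/
noncomputable def h1 (α : ℝ) (h A B A' B' : ℝ → ℝ) (ψ : ℝ) : ℝ :=
  h ψ + P A B' (ψ - α) + P B A' (ψ + α)

theorem periodic_comp_sub {f : ℝ → ℝ} (hf : Function.Periodic f π) (a : ℝ) :
    Function.Periodic (fun x => f (x - a)) π := fun x => by
  show f (x + π - a) = f (x - a)
  rw [show x + π - a = x - a + π by ring, hf]

theorem H1_per (Bs : Base α c H h d) : Function.Periodic (H1 H f1 f2) π := by
  intro θ
  unfold H1
  rw [Bs.pH, P_per f1 f1, show θ + π - π / 2 = θ - π / 2 + π by ring, P_per f2 f2]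

theorem h1_per (Bs : Base α c H h d) : Function.Periodic (h1 α h A B A' B') π := by
  intro θ
  unfold h1
  rw [Bs.ph, show θ + π - α = θ - α + π by ring, P_per A B',
    show θ + π + α = θ + α + π by ring, P_per B A']

theorem H1_even (Bs : Base α c H h d) (L1 : GoodF f1 c') (L2 : GoodF f2 c') (θ : ℝ) :
    H1 H f1 f2 (-θ) = H1 H f1 f2 θ := by
  unfold H1
  rw [Bs.eH, P_even L1, show -θ - π / 2 = -(θ + π / 2) by ring, P_even L2,
    show θ + π / 2 = θ - π / 2 + π by ring, P_per f2 f2]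

theorem H1_sm (Bs : Base α c H h d) (L1 : GoodF f1 c') (L2 : GoodF f2 c') :
    ContDiff ℝ ((⊤ : ℕ∞) : WithTop ℕ∞) (H1 H f1 f2) :=
  (Bs.sH.add (P_sm L1 L1)).add ((P_sm L2 L2).comp (contDiff_id.sub contDiff_const))

theorem h1_sm (Bs : Base α c H h d) (LA : GoodF A c') (LB : GoodF B c') (LA' : GoodF A' c')
    (LB' : GoodF B' c') : ContDiff ℝ ((⊤ : ℕ∞) : WithTop ℕ∞) (h1 α h A B A' B') :=
  (Bs.sh.add ((P_sm LA LB').comp (contDiff_id.sub contDiff_const))).add
    ((P_sm LB LA').comp (contDiff_id.add contDiff_const))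

theorem sm_diff {f : ℝ → ℝ} (hf : ContDiff ℝ ((⊤ : ℕ∞) : WithTop ℕ∞) f) : Differentiable ℝ f :=
  hf.differentiable (by simp)

theorem deriv_add3 {f g k : ℝ → ℝ} {θ : ℝ} (e1 : DifferentiableAt ℝ f θ)
    (e2 : DifferentiableAt ℝ g θ) (e3 : DifferentiableAt ℝ k θ) :
    deriv (fun x => f x + g x + k x) θ = deriv f θ + deriv g θ + deriv k θ :=
  ((e1.hasDerivAt.add e2.hasDerivAt).add e3.hasDerivAt).deriv

theorem H1_deriv (Bs : Base α c H h d) (L1 : GoodF f1 c') (L2 : GoodF f2 c') (θ : ℝ) :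
    deriv (H1 H f1 f2) θ = deriv H θ + deriv (P f1 f1) θ + deriv (P f2 f2) (θ - π / 2) := by
  have e1 := sm_diff Bs.sH θ
  have e2 := sm_diff (P_sm L1 L1) θ
  have e3 : DifferentiableAt ℝ (fun x => P f2 f2 (x - π / 2)) θ :=
    sm_diff ((P_sm L2 L2).comp (contDiff_id.sub contDiff_const)) θ
  have e4 : deriv (fun x => H x + P f1 f1 x + P f2 f2 (x - π / 2)) θ =
      deriv H θ + deriv (P f1 f1) θ + deriv (fun x => P f2 f2 (x - π / 2)) θ :=
    deriv_add3 e1 e2 e3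
  rw [deriv_shift] at e4
  exact e4

theorem h1_deriv (Bs : Base α c H h d) (LA : GoodF A c') (LB : GoodF B c') (LA' : GoodF A' c')
    (LB' : GoodF B' c') (θ : ℝ) :
    deriv (h1 α h A B A' B') θ =
      deriv h θ + deriv (P A B') (θ - α) + deriv (P B A') (θ + α) := by
  have e1 := sm_diff Bs.sh θ
  have e2 : DifferentiableAt ℝ (fun x => P A B' (x - α)) θ :=
    sm_diff ((P_sm LA LB').comp (contDiff_id.sub contDiff_const)) θ
  have e3 : DifferentiableAt ℝ (fun x => P B A' (x + α)) θ :=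
    sm_diff ((P_sm LB LA').comp (contDiff_id.add contDiff_const)) θ
  have e4 : deriv (fun x => h x + P A B' (x - α) + P B A' (x + α)) θ =
      deriv h θ + deriv (fun x => P A B' (x - α)) θ + deriv (fun x => P B A' (x + α)) θ :=
    deriv_add3 e1 e2 e3
  rw [deriv_shift, deriv_comp_add_const] at e4
  exact e4

theorem H1_deriv2 (Bs : Base α c H h d) (L1 : GoodF f1 c') (L2 : GoodF f2 c') (θ : ℝ) :
    deriv (deriv (H1 H f1 f2)) θ =
      deriv (deriv H) θ + deriv (deriv (P f1 f1)) θ + deriv (deriv (P f2 f2)) (θ - π / 2) := by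
  have h0 : deriv (H1 H f1 f2) =
      fun x => deriv H x + deriv (P f1 f1) x + deriv (P f2 f2) (x - π / 2) := by
    funext x; exact H1_deriv Bs L1 L2 x
  have s1 : ContDiff ℝ ((⊤ : ℕ∞) : WithTop ℕ∞) (deriv H) := Bs.sH.deriv'
  have s2 : ContDiff ℝ ((⊤ : ℕ∞) : WithTop ℕ∞) (deriv (P f1 f1)) := (P_sm L1 L1).deriv'
  have s3 : ContDiff ℝ ((⊤ : ℕ∞) : WithTop ℕ∞) (deriv (P f2 f2)) := (P_sm L2 L2).deriv'
  have e1 := sm_diff s1 θ
  have e2 := sm_diff s2 θ
  have e3 : DifferentiableAt ℝ (fun x => deriv (P f2 f2) (x - π / 2)) θ :=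
    sm_diff (s3.comp (contDiff_id.sub contDiff_const)) θ
  rw [h0, deriv_add3 e1 e2 e3, deriv_shift]

theorem h1_deriv2 (Bs : Base α c H h d) (LA : GoodF A c') (LB : GoodF B c') (LA' : GoodF A' c')
    (LB' : GoodF B' c') (θ : ℝ) :
    deriv (deriv (h1 α h A B A' B')) θ =
      deriv (deriv h) θ + deriv (deriv (P A B')) (θ - α) + deriv (deriv (P B A')) (θ + α) := by
  have h0 : deriv (h1 α h A B A' B') =
      fun x => deriv h x + deriv (P A B') (x - α) + deriv (P B A') (x + α) := by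
    funext x; exact h1_deriv Bs LA LB LA' LB' x
  have s1 : ContDiff ℝ ((⊤ : ℕ∞) : WithTop ℕ∞) (deriv h) := Bs.sh.deriv'
  have s2 : ContDiff ℝ ((⊤ : ℕ∞) : WithTop ℕ∞) (deriv (P A B')) := (P_sm LA LB').deriv'
  have s3 : ContDiff ℝ ((⊤ : ℕ∞) : WithTop ℕ∞) (deriv (P B A')) := (P_sm LB LA').deriv'
  have e1 := sm_diff s1 θ
  have e2 : DifferentiableAt ℝ (fun x => deriv (P A B') (x - α)) θ :=
    sm_diff (s2.comp (contDiff_id.sub contDiff_const)) θ
  have e3 : DifferentiableAt ℝ (fun x => deriv (P B A') (x + α)) θ :=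
    sm_diff (s3.comp (contDiff_id.add contDiff_const)) θ
  rw [h0, deriv_add3 e1 e2 e3, deriv_shift, deriv_comp_add_const]

/-! #### Values of the caustic in the windows -/

section windows

variable (Bs : Base α c H h d) (LA : GoodF A c') (LB : GoodF B c') (LA' : GoodF A' c')
    (LB' : GoodF B' c')

include Bs LA LB LA' LB'

theorem W1 {y : ℝ} (hy : y ∈ gapI) : h1 α h A B A' B' (α + y) = 1 + A y := by
  have hπ := Real.pi_gt_d2
  have hπ' := Real.pi_lt_d2
  have a1 := Bs.α1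
  have a2 := Bs.α2
  obtain ⟨y0, y1⟩ := hy
  unfold h1
  rw [Bs.h1 (α + y) ⟨by linarith, by linarith⟩, show α + y - α = y by ring,
    P_pos LA LB' y0 (by linarith), P_zero LB LA' (by linarith) (by linarith), add_zero]

theorem W2 {y : ℝ} (hy : y ∈ gapI) : h1 α h A B A' B' (α - y) = 1 + B' y := by
  have hπ := Real.pi_gt_d2
  have hπ' := Real.pi_lt_d2
  have a1 := Bs.α1
  have a2 := Bs.α2
  obtain ⟨y0, y1⟩ := hy
  unfold h1
  rw [Bs.h1 (α - y) ⟨by linarith, by linarith⟩, show α - y - α = -y by ring,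
    P_neg LA LB' y0 (by linarith), P_zero LB LA' (by linarith) (by linarith), add_zero]

theorem W3 {y : ℝ} (hy : y ∈ gapI) : h1 α h A B A' B' (-α + y) = 1 + B y := by
  have hπ := Real.pi_gt_d2
  have hπ' := Real.pi_lt_d2
  have a1 := Bs.α1
  have a2 := Bs.α2
  obtain ⟨y0, y1⟩ := hy
  unfold h1
  rw [← Bs.ph (-α + y), Bs.h1 (-α + y + π) ⟨by linarith, by linarith⟩,
    show -α + y - α = -(2 * α - y) by ring,
    P_zero' LA LB' (by linarith) (by linarith), show -α + y + α = y by ring,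
    P_pos LB LA' y0 (by linarith), add_zero]

theorem W4 {y : ℝ} (hy : y ∈ gapI) : h1 α h A B A' B' (-α - y) = 1 + A' y := by
  have hπ := Real.pi_gt_d2
  have hπ' := Real.pi_lt_d2
  have a1 := Bs.α1
  have a2 := Bs.α2
  obtain ⟨y0, y1⟩ := hy
  unfold h1
  rw [← Bs.ph (-α - y), Bs.h1 (-α - y + π) ⟨by linarith, by linarith⟩,
    show -α - y - α = -(2 * α + y) by ring,
    P_zero' LA LB' (by linarith) (by linarith), show -α - y + α = -y by ring,
    P_neg LB LA' y0 (by linarith), add_zero]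

theorem W0 {ψ : ℝ} (hψ : ψ ∈ Icc (7 / 20 - α) (α - 7 / 20)) : h1 α h A B A' B' ψ = h ψ := by
  have hπ := Real.pi_gt_d2
  have hπ' := Real.pi_lt_d2
  have a1 := Bs.α1
  have a2 := Bs.α2
  obtain ⟨y0, y1⟩ := hψ
  unfold h1
  rw [show ψ - α = -(α - ψ) by ring, P_zero' LA LB' (by linarith) (by linarith),
    P_zero LB LA' (by linarith) (by linarith), add_zero, add_zero]

theorem W00 {ψ : ℝ} (hψ : ψ ∈ Icc (α + 7 / 20) (π - α - 7 / 20)) :
    h1 α h A B A' B' ψ = h ψ := by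
  have hπ := Real.pi_gt_d2
  have hπ' := Real.pi_lt_d2
  have a1 := Bs.α1
  have a2 := Bs.α2
  obtain ⟨y0, y1⟩ := hψ
  unfold h1
  rw [P_zero LA LB' (y := ψ - α) (by linarith) (by linarith)]
  have e1 : P B A' (ψ + α) = P B A' (-(π - α - ψ)) := by
    rw [← P_per B A' (-(π - α - ψ))]
    congr 1; ring
  rw [e1, P_zero' LB LA' (by linarith) (by linarith), add_zero, add_zero]

end windows

/-! #### Values of the mirror in the windows -/

section mirrors

variable (Bs : Base α c H h d) (L1 : GoodF f1 c') (L2 : GoodF f2 c')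

include Bs L1 L2

theorem M1 {m : ℝ} (hm : m ∈ gapI) : H1 H f1 f2 m = 1 / cos α + f1 m ∧
    deriv (H1 H f1 f2) m = deriv f1 m := by
  have hπ := Real.pi_gt_d2
  have hπ' := Real.pi_lt_d2
  obtain ⟨m0, m1⟩ := hm
  have hH : H =ᶠ[𝓝 m] fun _ => 1 / cos α := by
    filter_upwards [Ioo_mem_nhds (show (-(2 / 5) : ℝ) < m by linarith)
      (show m < 2 / 5 by linarith)] with x hx
    exact (Bs.w1 x ⟨hx.1.le, hx.2.le⟩).1
  constructor
  · unfold H1
    rw [hH.eq_of_nhds, P_pos L1 L1 m0 (by linarith), show m - π / 2 = -(π / 2 - m) by ring,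
      P_zero' L2 L2 (by linarith) (by linarith), add_zero]
  · rw [H1_deriv Bs L1 L2, hH.deriv_eq, deriv_const, deriv_P_pos L1 L1 m0 (by linarith),
      deriv_P_zero L2 L2, zero_add, add_zero]
    · rw [abs_of_neg (by linarith)]; linarith
    · rw [abs_of_neg (by linarith)]; linarith

theorem M2 {m : ℝ} (hm : m ∈ gapI) : H1 H f1 f2 (π / 2 + m) = 1 / cos (al2 α) + f2 m ∧
    deriv (H1 H f1 f2) (π / 2 + m) = deriv f2 m := by
  have hπ := Real.pi_gt_d2
  have hπ' := Real.pi_lt_d2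
  obtain ⟨m0, m1⟩ := hm
  have hH : H =ᶠ[𝓝 (π / 2 + m)] fun _ => 1 / cos (al2 α) := by
    filter_upwards [Ioo_mem_nhds (show π / 2 - 2 / 5 < π / 2 + m by linarith)
      (show π / 2 + m < π / 2 + 2 / 5 by linarith)] with x hx
    exact (Bs.w2 x ⟨hx.1.le, hx.2.le⟩).1
  constructor
  · unfold H1
    rw [hH.eq_of_nhds, show π / 2 + m - π / 2 = m by ring, P_pos L2 L2 m0 (by linarith),
      P_zero L1 L1 (by linarith) (by linarith), add_zero]
  · rw [H1_deriv Bs L1 L2, hH.deriv_eq, deriv_const, show π / 2 + m - π / 2 = m by ring,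
      deriv_P_pos L2 L2 m0 (by linarith), deriv_P_zero L1 L1, zero_add, zero_add]
    · rw [abs_of_pos (by linarith)]; linarith
    · rw [abs_of_pos (by linarith)]; linarith

theorem M0 {θ : ℝ} (h1 : 7 / 20 ≤ |θ|) (h2 : |θ| < π - 7 / 20) (h3 : 7 / 20 ≤ |θ - π / 2|)
    (h4 : |θ - π / 2| < π - 7 / 20) : H1 H f1 f2 θ = H θ ∧
    deriv (H1 H f1 f2) θ = deriv H θ := by
  constructor
  · unfold H1
    rw [P_eq L1 L1 h2, sym_zero' L1 L1 _ h1, P_eq L2 L2 h4, sym_zero' L2 L2 _ h3, add_zero,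
      add_zero]
  · rw [H1_deriv Bs L1 L2, deriv_P_zero L1 L1 h1 h2, deriv_P_zero L2 L2 h3 h4, add_zero,
      add_zero]

end mirrors

/-- all the laws at `θ` -/
def Good1 (H₁ h₁ : ℝ → ℝ) (θ : ℝ) : Prop := ∃ d, 0 < d ∧ d < π / 2 ∧
  h₁ (θ - d) = H₁ θ * cos d - deriv H₁ θ * sin d ∧
  h₁ (θ + d) = H₁ θ * cos d + deriv H₁ θ * sin d

theorem good1_of_neg {H₁ h₁ : ℝ → ℝ} {θ : ℝ} (he : ∀ x, H₁ (-x) = H₁ x)
    (h : ∃ d, 0 < d ∧ d < π / 2 ∧
      h₁ (-θ - d) = H₁ θ * cos d + deriv H₁ θ * sin d ∧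
      h₁ (-θ + d) = H₁ θ * cos d - deriv H₁ θ * sin d) : Good1 H₁ h₁ (-θ) := by
  obtain ⟨d, d0, d1, e1, e2⟩ := h
  have h3 : deriv H₁ (-θ) = -deriv H₁ θ := by
    have h4 : (fun x => H₁ (-x)) = H₁ := funext he
    have h5 := deriv_comp_neg H₁ θ
    rw [h4] at h5
    linarith
  refine ⟨d, d0, d1, ?_, ?_⟩
  · rw [e1, he, h3]; ring
  · rw [e2, he, h3]; ring

theorem good1_add_pi {H₁ h₁ : ℝ → ℝ} (hH : Function.Periodic H₁ π)
    (hh : Function.Periodic h₁ π) {θ : ℝ} (h : Good1 H₁ h₁ θ) (n : ℤ) :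
    Good1 H₁ h₁ (θ + n * π) := by
  obtain ⟨d, d0, d1, e1, e2⟩ := h
  have h1 : H₁ (θ + n * π) = H₁ θ := by
    have := hH.int_mul n θ
    simpa using this
  have h2 : ∀ x, h₁ (x + n * π) = h₁ x := fun x => by
    have := hh.int_mul n x
    simpa using this
  have h3 : deriv H₁ (θ + n * π) = deriv H₁ θ := by
    have h4 : (fun x => H₁ (x + n * π)) = H₁ := funext fun x => by
      have := hH.int_mul n x
      simpa using this
    have h5 := deriv_comp_add_const H₁ (n * π) θ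
    rw [h4] at h5
    exact h5.symm
  refine ⟨d, d0, d1, ?_, ?_⟩
  · rw [show θ + n * π - d = (θ - d) + n * π by ring, h2, h1, h3, e1]
  · rw [show θ + n * π + d = (θ + d) + n * π by ring, h2, h1, h3, e2]

end glue

end Asm

open Asm

theorem assembly {α c c' : ℝ} {H h d : ℝ → ℝ} (Bs : Base α c H h d)
    {f1 f2 A B A' B' : ℝ → ℝ} (L : Launcher α c' f1 f2 A B A' B') (hc : 20 * c' ≤ c) :
    ∃ H₁ h₁ d₁ : ℝ → ℝ, GeomHyp H₁ h₁ d₁ := by
  have hπ := Real.pi_gt_d2
  have hπ' := Real.pi_lt_d2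
  have a1 := Bs.α1
  have a2 := Bs.α2
  have hc' : 0 ≤ c' := (abs_nonneg _).trans (L.g1.small 0 (mem_univ _)).1
  have hH1e : ∀ θ, H1 H f1 f2 (-θ) = H1 H f1 f2 θ := H1_even Bs L.g1 L.g2
  have hH1p : Function.Periodic (H1 H f1 f2) π := H1_per Bs
  have hh1p : Function.Periodic (h1 α h A B A' B') π := h1_per Bs
  -- mirror 1, fast
  have C1 : ∀ m ∈ gapI, Good1 (H1 H f1 f2) (h1 α h A B A' B') m := by
    intro m hm
    obtain ⟨d, hd, hgap, -, l1, l2⟩ := L.fast1 m
    obtain ⟨g1, g2⟩ := hgap hm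
    obtain ⟨e1, e2⟩ := M1 Bs L.g1 L.g2 hm
    rw [abs_le] at hd
    refine ⟨d, by linarith, by linarith, ?_, ?_⟩
    · rw [show m - d = -α + (m - d + α) by ring, W3 Bs L.gA L.gB L.gA' L.gB' g1, e1, e2]
      exact l1
    · rw [show m + d = α + (m + d - α) by ring, W1 Bs L.gA L.gB L.gA' L.gB' g2, e1, e2]
      exact l2
  -- mirror 1, slow
  have C2 : ∀ m ∈ gapI, Good1 (H1 H f1 f2) (h1 α h A B A' B') (-m) := by
    intro m hm
    obtain ⟨d, hd, hgap, -, l1, l2⟩ := L.slow1 m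
    obtain ⟨g1, g2⟩ := hgap hm
    obtain ⟨e1, e2⟩ := M1 Bs L.g1 L.g2 hm
    rw [abs_le] at hd
    refine good1_of_neg hH1e ⟨d, by linarith, by linarith, ?_, ?_⟩
    · rw [show -m - d = -α - (m + d - α) by ring, W4 Bs L.gA L.gB L.gA' L.gB' g2, e1, e2]
      exact l2
    · rw [show -m + d = α - (m - d + α) by ring, W2 Bs L.gA L.gB L.gA' L.gB' g1, e1, e2]
      exact l1
  -- mirror 2, fast
  have C3 : ∀ m ∈ gapI, Good1 (H1 H f1 f2) (h1 α h A B A' B') (π / 2 + m) := by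
    intro m hm
    obtain ⟨d, hd, hgap, -, l1, l2⟩ := L.fast2 m
    obtain ⟨g1, g2⟩ := hgap hm
    obtain ⟨e1, e2⟩ := M2 Bs L.g1 L.g2 hm
    rw [abs_le] at hd
    unfold al2 at hd g1 g2 l1 l2 e1
    refine ⟨d, by linarith, by linarith, ?_, ?_⟩
    · rw [show π / 2 + m - d = α + (m - d + (π / 2 - α)) by ring,
        W1 Bs L.gA L.gB L.gA' L.gB' g1, e1, e2]
      exact l1
    · rw [show π / 2 + m + d = -α + (m + d - (π / 2 - α)) + π by ring, hh1p,
        W3 Bs L.gA L.gB L.gA' L.gB' g2, e1, e2]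
      exact l2
  -- mirror 2, slow
  have C4 : ∀ m ∈ gapI, Good1 (H1 H f1 f2) (h1 α h A B A' B') (-(π / 2 + m)) := by
    intro m hm
    obtain ⟨d, hd, hgap, -, l1, l2⟩ := L.slow2 m
    obtain ⟨g1, g2⟩ := hgap hm
    obtain ⟨e1, e2⟩ := M2 Bs L.g1 L.g2 hm
    rw [abs_le] at hd
    unfold al2 at hd g1 g2 l1 l2 e1
    refine good1_of_neg hH1e ⟨d, by linarith, by linarith, ?_, ?_⟩
    · rw [← hh1p (-(π / 2 + m) - d),
        show -(π / 2 + m) - d + π = α - (m + d - (π / 2 - α)) by ring,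
        W2 Bs L.gA L.gB L.gA' L.gB' g2, e1, e2]
      exact l2
    · rw [show -(π / 2 + m) + d = -α - (m - d + (π / 2 - α)) by ring,
        W4 Bs L.gA L.gB L.gA' L.gB' g1, e1, e2]
      exact l1
  have hd1 : d (7 / 20) = α := (Bs.w1 _ ⟨by norm_num, by norm_num⟩).2
  have hd1' : d (-(7 / 20)) = α := (Bs.w1 _ ⟨by norm_num, by norm_num⟩).2
  have hd2 : d (π / 2 - 7 / 20) = al2 α := (Bs.w2 _ ⟨by linarith, by linarith⟩).2
  -- outside of the windows
  have C5 : ∀ θ ∈ Ioo (7 / 20 : ℝ) (π / 2 - 7 / 20),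
      Good1 (H1 H f1 f2) (h1 α h A B A' B') θ := by
    intro θ hθ
    obtain ⟨t1, t2⟩ := hθ
    obtain ⟨e1, e2⟩ := M0 Bs L.g1 L.g2 (θ := θ) (by rw [abs_of_pos (by linarith)]; linarith)
      (by rw [abs_of_pos (by linarith)]; linarith) (by rw [abs_of_neg (by linarith)]; linarith)
      (by rw [abs_of_neg (by linarith)]; linarith)
    have m1 := Bs.mono1 t1
    have m2 := Bs.mono2 t1
    have m3 := Bs.mono1 t2
    have m4 := Bs.mono2 t2
    simp only [hd1, hd2] at m1 m2 m3 m4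
    unfold al2 at m3 m4
    refine ⟨d θ, Bs.d0 θ, Bs.d1 θ, ?_, ?_⟩
    · rw [W0 Bs L.gA L.gB L.gA' L.gB' ⟨by linarith, by linarith⟩, e1, e2, Bs.law1]
    · rw [W00 Bs L.gA L.gB L.gA' L.gB' ⟨by linarith, by linarith⟩, e1, e2, Bs.law2]
  have C6 : ∀ θ ∈ Ioo (7 / 20 : ℝ) (π / 2 - 7 / 20),
      Good1 (H1 H f1 f2) (h1 α h A B A' B') (-θ) := by
    intro θ hθ
    obtain ⟨t1, t2⟩ := hθ
    obtain ⟨e1, e2⟩ := M0 Bs L.g1 L.g2 (θ := θ) (by rw [abs_of_pos (by linarith)]; linarith)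
      (by rw [abs_of_pos (by linarith)]; linarith) (by rw [abs_of_neg (by linarith)]; linarith)
      (by rw [abs_of_neg (by linarith)]; linarith)
    have m1 := Bs.mono1 t1
    have m2 := Bs.mono2 t1
    have m3 := Bs.mono1 t2
    have m4 := Bs.mono2 t2
    simp only [hd1, hd2] at m1 m2 m3 m4
    unfold al2 at m3 m4
    refine good1_of_neg hH1e ⟨d θ, Bs.d0 θ, Bs.d1 θ, ?_, ?_⟩
    · rw [← hh1p (-θ - d θ), W00 Bs L.gA L.gB L.gA' L.gB' ⟨by linarith, by linarith⟩, e1, e2,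
        Bs.ph, show -θ - d θ = -(θ + d θ) by ring, Bs.eh, Bs.law2]
    · rw [W0 Bs L.gA L.gB L.gA' L.gB' ⟨by linarith, by linarith⟩, e1, e2,
        show -θ + d θ = -(θ - d θ) by ring, Bs.eh, Bs.law1]
  -- all
  have C7 : ∀ θ, 0 ≤ θ → θ ≤ π / 2 + 7 / 20 → Good1 (H1 H f1 f2) (h1 α h A B A' B') θ := by
    intro θ t0 t1
    by_cases k1 : θ ≤ 7 / 20
    · exact C1 θ ⟨t0, k1⟩
    push Not at k1
    by_cases k2 : θ < π / 2 - 7 / 20
    · exact C5 θ ⟨k1, k2⟩
    push Not at k2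
    by_cases k3 : θ < π / 2
    · have := good1_add_pi hH1p hh1p (C4 (π / 2 - θ) ⟨by linarith, by linarith⟩) 1
      rwa [show -(π / 2 + (π / 2 - θ)) + ((1 : ℤ) : ℝ) * π = θ by push_cast; ring] at this
    · push Not at k3
      have := C3 (θ - π / 2) ⟨by linarith, by linarith⟩
      rwa [show π / 2 + (θ - π / 2) = θ by ring] at this
  have C8 : ∀ θ, 0 ≤ θ → θ ≤ π / 2 → Good1 (H1 H f1 f2) (h1 α h A B A' B') (-θ) := by
    intro θ t0 t1
    by_cases k1 : θ ≤ 7 / 20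
    · exact C2 θ ⟨t0, k1⟩
    push Not at k1
    by_cases k2 : θ < π / 2 - 7 / 20
    · exact C6 θ ⟨k1, k2⟩
    push Not at k2
    have := good1_add_pi hH1p hh1p (C3 (π / 2 - θ) ⟨by linarith, by linarith⟩) (-1)
    rwa [show π / 2 + (π / 2 - θ) + ((-1 : ℤ) : ℝ) * π = -θ by push_cast; ring] at this
  have C9 : ∀ θ, Good1 (H1 H f1 f2) (h1 α h A B A' B') θ := by
    intro θ
    have k1 := abs_le.1 (abs_round_le θ)
    set n := round (θ / π)
    have k2 : Good1 (H1 H f1 f2) (h1 α h A B A' B') (θ - n * π) := by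
      by_cases k3 : 0 ≤ θ - n * π
      · exact C7 _ k3 (by linarith)
      · have := C8 (-(θ - n * π)) (by linarith) (by linarith)
        rwa [neg_neg] at this
    have k4 := good1_add_pi hH1p hh1p k2 n
    rwa [sub_add_cancel] at k4
  choose d₁ c1 c2 c3 c4 using C9
  have bP : ∀ (f g : ℝ → ℝ), GoodF f c' → GoodF g c' → ∀ y,
      -(2 * c') ≤ P f g y ∧ P f g y ≤ 2 * c' ∧ -(2 * c') ≤ deriv (deriv (P f g)) y ∧
        deriv (deriv (P f g)) y ≤ 2 * c' := fun f g hf hg y =>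
    ⟨(abs_le.1 (P_bd hf hg y)).1, (abs_le.1 (P_bd hf hg y)).2,
      (abs_le.1 (deriv2_P_bd hf hg y)).1, (abs_le.1 (deriv2_P_bd hf hg y)).2⟩
  have cpos := Bs.cpos
  refine ⟨H1 H f1 f2, h1 α h A B A' B', d₁,
    { sH := H1_sm Bs L.g1 L.g2
      sh := h1_sm Bs L.gA L.gB L.gA' L.gB'
      pH := ?_
      ph := ?_
      cH := ?_
      ch := ?_
      hpos := ?_
      hH := ?_
      d0 := c1
      d1 := c2
      law1 := c3
      law2 := c4
      eH := hH1e
      ne := ?_ }⟩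
  · have := hH1p.nat_mul 2
    simpa using this
  · have := hh1p.nat_mul 2
    simpa using this
  · intro θ
    rw [H1_deriv2 Bs L.g1 L.g2]
    have b1 := bP f1 f1 L.g1 L.g1 θ
    have b2 := bP f2 f2 L.g2 L.g2 (θ - π / 2)
    have b3 := Bs.cH θ
    unfold H1
    linarith [b1.1, b1.2.2.1, b2.1, b2.2.2.1]
  · intro θ
    rw [h1_deriv2 Bs L.gA L.gB L.gA' L.gB']
    have b1 := bP A B' L.gA L.gB' (θ - α)
    have b2 := bP B A' L.gB L.gA' (θ + α)
    have b3 := Bs.ch θ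
    unfold h1
    linarith [b1.1, b1.2.2.1, b2.1, b2.2.2.1]
  · intro θ
    have b1 := bP A B' L.gA L.gB' (θ - α)
    have b2 := bP B A' L.gB L.gA' (θ + α)
    have b3 := Bs.hc θ
    unfold h1
    linarith [b1.1, b2.1]
  · intro θ
    have b1 := bP A B' L.gA L.gB' (θ - α)
    have b2 := bP B A' L.gB L.gA' (θ + α)
    have b3 := bP f1 f1 L.g1 L.g1 θ
    have b4 := bP f2 f2 L.g2 L.g2 (θ - π / 2)
    have b5 := Bs.hH θ
    unfold h1 H1
    linarith [b1.2.1, b2.2.1, b3.1, b4.1]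
  · refine ⟨α + 7 / 40, ?_⟩
    have g : (7 / 40 : ℝ) ∈ gapI := ⟨by norm_num, by norm_num⟩
    rw [W1 Bs L.gA L.gB L.gA' L.gB' g, show -(α + 7 / 40) = -α - 7 / 40 by ring,
      W4 Bs L.gA L.gB L.gA' L.gB' g]
    intro h
    exact L.ne (by linarith)

end Pool.Agent.Helper58.Bil
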